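import Pool.Agent.Helper16.CZ.Stmts
import Pool.Agent.Helper53.BZ.PDT
import Pool.Agent.Helper35.BZ.PDC

/-!
TST: the induction step (MP_7a8f48_an).
-/

open Finset Filter MeasureTheory Topology
open scoped ComplexConjugate InnerProductSpace

namespace Pool.Agent.Helper16.CZ

open Pool.Agent.Helper16.AZ (T E Op mm ST_VDH ST_FPV ST_TLR)
open Pool.Agent.Helper16.BZ (EQ GR PD pdt_Z pdt_B pdt_Z_symm pdt_Z_smul pdt_Z_sum pdt_Z_bound
  pdt_B_mono pdt_B_two pdt_B_one pdt_B_sum pdt_Z_smul2 pdt_norm pdc_fc pdc_app pdc_high)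
open UnitAddTorus (mFourier)

/-- set the coordinates of level greater than `ℓ` to zero -/
def tst_q {r : ℕ} (lev : Fin r → ℕ) (ℓ : ℕ) (w : T r) : T r := fun j => if lev j ≤ ℓ then w j else 0

/-- the same for frequencies -/
def tst_r {r : ℕ} (lev : Fin r → ℕ) (ℓ : ℕ) (Y : Fin r → ℤ) : Fin r → ℤ :=
  fun j => if lev j ≤ ℓ then Y j else 0

theorem tst_qr {r : ℕ} (lev : Fin r → ℕ) (ℓ : ℕ) (Y : Fin r → ℤ) (w : T r) :
    mFourier Y (tst_q lev ℓ w) = mFourier (tst_r lev ℓ Y) w := by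
  show ∏ i, fourier (Y i) (tst_q lev ℓ w i) = ∏ i, fourier (tst_r lev ℓ Y i) (w i)
  refine Finset.prod_congr rfl fun i _ => ?_
  unfold tst_q tst_r
  by_cases h : lev i ≤ ℓ
  · rw [if_pos h, if_pos h]
  · rw [if_neg h, if_neg h, fourier_eval_zero, fourier_zero]

/-- approximation by trigonometric polynomials of the same level -/
theorem tst_approx {r : ℕ} (lev : Fin r → ℕ) (ℓ : ℕ) (F : T r → ℂ) (hF : Continuous F)
    (hdep : ∀ x y : T r, (∀ j, lev j ≤ ℓ → x j = y j) → F x = F y) (e : ℝ) (he : 0 < e) :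
    ∃ (A : Finset (Fin r → ℤ)) (g : (Fin r → ℤ) → ℂ),
      (∀ Y ∈ A, ∀ j, Y j ≠ 0 → lev j ≤ ℓ) ∧
      ∀ w, ‖F w - ∑ Y ∈ A, g Y * mFourier Y w‖ ≤ e := by
  classical
  obtain ⟨c, hc⟩ := pdc_app F hF e he
  refine ⟨c.support.image (tst_r lev ℓ),
    fun Y => ∑ X ∈ c.support with tst_r lev ℓ X = Y, c X, ?_, ?_⟩
  · intro Y hY j hj
    obtain ⟨X, _, rfl⟩ := Finset.mem_image.1 hY
    by_contra hcon
    exact hj (if_neg hcon)
  · intro w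
    have h1 : F w = F (tst_q lev ℓ w) := by
      refine hdep _ _ fun j hj => ?_
      unfold tst_q
      rw [if_pos hj]
    have h2 : ∑ Y ∈ c.support.image (tst_r lev ℓ),
        (∑ X ∈ c.support with tst_r lev ℓ X = Y, c X) * mFourier Y w =
        ∑ X ∈ c.support, c X * mFourier X (tst_q lev ℓ w) := by
      rw [← Finset.sum_fiberwise_of_maps_to (t := c.support.image (tst_r lev ℓ))
        (g := tst_r lev ℓ) (fun X hX => Finset.mem_image_of_mem _ hX)]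
      refine Finset.sum_congr rfl fun Y _ => ?_
      rw [Finset.sum_mul]
      refine Finset.sum_congr rfl fun X hX => ?_
      rw [tst_qr, (Finset.mem_filter.1 hX).2]
    rw [h1, h2]
    exact hc _

/-- Cauchy and Schwarz -/
theorem tst_cs (a b : ℕ → ℂ) (s : ℝ) (hs : 0 < s) (M : ℕ) :
    ‖∑ y ∈ Icc 1 M, a y * conj (b y)‖ ≤
      (s * ∑ y ∈ Icc 1 M, ‖a y‖ ^ 2 + s⁻¹ * ∑ y ∈ Icc 1 M, ‖b y‖ ^ 2) / 2 := by
  refine (norm_sum_le _ _).trans ?_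
  rw [Finset.mul_sum, Finset.mul_sum, ← Finset.sum_add_distrib, Finset.sum_div]
  refine Finset.sum_le_sum fun y _ => ?_
  rw [norm_mul, RCLike.norm_conj]
  have h1 : 0 ≤ s⁻¹ * (s * ‖a y‖ - ‖b y‖) ^ 2 := by positivity
  have h2 : s⁻¹ * (s * ‖a y‖ - ‖b y‖) ^ 2 =
      s * ‖a y‖ ^ 2 + s⁻¹ * ‖b y‖ ^ 2 - 2 * (‖a y‖ * ‖b y‖) := by
    field_simp
    ring
  rw [h2] at h1
  linarith

/-- the mean square of a trigonometric polynomial -/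
theorem tst_sq {r : ℕ} (lev : Fin r → ℕ) (S : T r → T r) (ℓ P : ℕ) (x : T r)
    (hE : ∀ X : Fin r → ℤ, X ≠ 0 → (∀ j, X j ≠ 0 → lev j ≤ ℓ) →
      Tendsto (fun M : ℕ => (∑ y ∈ Icc 1 M, mFourier X (S^[P * y] x)) / (M : ℂ)) atTop (𝓝 0))
    (J : Finset (Fin r → ℤ)) (hJ : ∀ Y ∈ J, ∀ j, Y j ≠ 0 → lev j ≤ ℓ) (g : (Fin r → ℤ) → ℂ) :
    pdt_B (fun y => ∑ Y ∈ J, g Y * mFourier Y (S^[P * y] x)) (∑ Y ∈ J, ‖g Y‖ ^ 2) := by
  refine pdt_B_sum J (fun Y _ => pdt_B_one (g Y) _ fun y => pdt_norm Y _) ?_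
  intro Y hY Y' hY' hne
  refine pdt_Z_smul2 (g Y) (g Y') ?_
  have h1 := hE (Y + -Y') (by
    intro h
    exact hne (add_neg_eq_zero.1 h)) (by
    intro j hj
    by_cases h : Y j = 0
    · by_cases h' : Y' j = 0
      · exfalso
        apply hj
        rw [Pi.add_apply, Pi.neg_apply, h, h']; simp
      · exact hJ Y' hY' j h'
    · exact hJ Y hY j h)
  refine h1.congr fun M => ?_
  congr 1
  refine Finset.sum_congr rfl fun y _ => ?_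
  rw [UnitAddTorus.mFourier_add, UnitAddTorus.mFourier_neg]

/-- decomposition -/
theorem tst_dec {r : ℕ} (hP : ST_FPV) (lev : Fin r → ℕ) (S : T r → T r) (ℓ P : ℕ) (x : T r)
    (hE : ∀ X : Fin r → ℤ, X ≠ 0 → (∀ j, X j ≠ 0 → lev j ≤ ℓ) →
      Tendsto (fun M : ℕ => (∑ y ∈ Icc 1 M, mFourier X (S^[P * y] x)) / (M : ℂ)) atTop (𝓝 0))
    (F : T r → ℂ) (hF : Continuous F)
    (hdep : ∀ x y : T r, (∀ j, lev j ≤ ℓ → x j = y j) → F x = F y)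
    (near : (Fin r → ℤ) → Prop) (e : ℝ) (he : 0 < e)
    (hfar : ∀ B : Finset (Fin r → ℤ), (∀ Y ∈ B, ¬ near Y) →
      ∑ Y ∈ B, ‖Pool.Agent.Helper16.AZ.fc F Y‖ ^ 2 ≤ e ^ 2) :
    ∃ (N : Finset (Fin r → ℤ)) (g : (Fin r → ℤ) → ℂ),
      (∀ Y ∈ N, near Y ∧ ∀ j, Y j ≠ 0 → lev j ≤ ℓ) ∧
      pdt_B (fun y => F (S^[P * y] x) - ∑ Y ∈ N, g Y * mFourier Y (S^[P * y] x))
        (10 * e ^ 2) := by
  classical
  obtain ⟨A, g, hA, hap⟩ := tst_approx lev ℓ F hF hdep e he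
  have hG : Continuous (fun θ : T r => ∑ Y ∈ A, g Y * mFourier Y θ) :=
    continuous_finsetSum _ fun Y _ => continuous_const.mul (mFourier Y).continuous
  have h1 := pdc_high hP F _ hF hG e (e ^ 2) hap (A.filter fun Y => ¬ near Y)
    (hfar _ fun Y hY => (Finset.mem_filter.1 hY).2)
  have h2 : ∑ Y ∈ A.filter (fun Y => ¬ near Y), ‖g Y‖ ^ 2 ≤ 2 * e ^ 2 + 2 * e ^ 2 := by
    refine le_trans (le_of_eq (Finset.sum_congr rfl fun Y hY => ?_)) h1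
    rw [pdc_fc A g Y (Finset.mem_filter.1 hY).1]
  refine ⟨A.filter near, g, fun Y hY => ⟨(Finset.mem_filter.1 hY).2,
    hA Y (Finset.mem_filter.1 hY).1⟩, ?_⟩
  have h3 := tst_sq lev S ℓ P x hE (A.filter fun Y => ¬ near Y)
    (fun Y hY => hA Y (Finset.mem_filter.1 hY).1) g
  have h4 : pdt_B (fun y => F (S^[P * y] x) - ∑ Y ∈ A, g Y * mFourier Y (S^[P * y] x))
      (e ^ 2) := by
    intro ε hε
    refine Eventually.of_forall fun M => ?_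
    have h5 : ∑ y ∈ Icc 1 M, ‖F (S^[P * y] x) - ∑ Y ∈ A, g Y * mFourier Y (S^[P * y] x)‖ ^ 2 ≤
        ∑ _y ∈ Icc 1 M, e ^ 2 :=
      Finset.sum_le_sum fun y _ => pow_le_pow_left₀ (norm_nonneg _) (hap _) 2
    refine h5.trans ?_
    rw [Finset.sum_const, Nat.card_Icc, nsmul_eq_mul, Nat.add_sub_cancel]
    have h6 : (0 : ℝ) ≤ ε * M := by positivity
    linarith
  have h7 := pdt_B_two h4 h3
  have h8 : (fun y => F (S^[P * y] x) - ∑ Y ∈ A.filter near, g Y * mFourier Y (S^[P * y] x)) =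
      fun y => (F (S^[P * y] x) - ∑ Y ∈ A, g Y * mFourier Y (S^[P * y] x)) +
        ∑ Y ∈ A.filter (fun Y => ¬ near Y), g Y * mFourier Y (S^[P * y] x) := by
    funext y
    rw [← Finset.sum_filter_add_sum_filter_not A near]
    ring
  rw [h8]
  exact pdt_B_mono h7 (by linarith)

/-- the bound for the product of two functions -/
theorem tst_prod {u v u' v' : ℕ → ℂ} {e : ℝ} (he : 0 < e) (he1 : e ≤ 1)
    (hu : ∀ y, ‖u y‖ ≤ 1) (hv : ∀ y, ‖v y‖ ≤ 1)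
    (h1 : pdt_B (fun y => u y - u' y) (10 * e ^ 2)) (h2 : pdt_B (fun y => v y - v' y) (10 * e ^ 2))
    (h3 : pdt_Z u' v') :
    ∀ᶠ M : ℕ in atTop, ‖∑ y ∈ Icc 1 M, u y * conj (v y)‖ ≤ 25 * e * M := by
  have hone : ∀ w : ℕ → ℂ, (∀ y, ‖w y‖ ≤ 1) → ∀ M : ℕ, ∑ y ∈ Icc 1 M, ‖w y‖ ^ 2 ≤ M := by
    intro w hw M
    have h5 : ∑ y ∈ Icc 1 M, ‖w y‖ ^ 2 ≤ ∑ _y ∈ Icc 1 M, (1 : ℝ) := by
      refine Finset.sum_le_sum fun y _ => ?_
      exact pow_le_one₀ (norm_nonneg _) (hw y)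
    refine h5.trans ?_
    rw [Finset.sum_const, Nat.card_Icc, nsmul_eq_mul, Nat.add_sub_cancel, mul_one]
  have hee : (0 : ℝ) < e ^ 2 := by positivity
  filter_upwards [h1 (e ^ 2) hee, h2 (e ^ 2) hee, pdt_Z_bound h3 e he] with M k1 k2 k3
  have k4 : ∑ y ∈ Icc 1 M, ‖u' y‖ ^ 2 ≤ 24 * M := by
    have h6 : ∑ y ∈ Icc 1 M, ‖u' y‖ ^ 2 ≤
        2 * ∑ y ∈ Icc 1 M, ‖u y‖ ^ 2 + 2 * ∑ y ∈ Icc 1 M, ‖u y - u' y‖ ^ 2 := by
      rw [Finset.mul_sum, Finset.mul_sum, ← Finset.sum_add_distrib]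
      refine Finset.sum_le_sum fun y _ => ?_
      have h7 : ‖u' y‖ ≤ ‖u y‖ + ‖u y - u' y‖ := by
        have := norm_sub_le (u y) (u y - u' y)
        rwa [sub_sub_cancel] at this
      have h8 : ‖u' y‖ ^ 2 ≤ (‖u y‖ + ‖u y - u' y‖) ^ 2 :=
        pow_le_pow_left₀ (norm_nonneg _) h7 2
      nlinarith [sq_nonneg (‖u y‖ - ‖u y - u' y‖)]
    have h9 := hone u hu M
    have h10 : (10 * e ^ 2 + e ^ 2) * (M : ℝ) ≤ 11 * M := by
      have : e ^ 2 ≤ 1 := pow_le_one₀ he.le he1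
      have hM : (0 : ℝ) ≤ M := Nat.cast_nonneg M
      nlinarith
    linarith
  have c1 := tst_cs (fun y => u y - u' y) v (e⁻¹) (by positivity) M
  have c2 := tst_cs u' (fun y => v y - v' y) e he M
  have e1 : ∑ y ∈ Icc 1 M, u y * conj (v y) =
      ∑ y ∈ Icc 1 M, (u y - u' y) * conj (v y) + ∑ y ∈ Icc 1 M, u' y * conj (v y - v' y) +
        ∑ y ∈ Icc 1 M, u' y * conj (v' y) := by
    rw [← Finset.sum_add_distrib, ← Finset.sum_add_distrib]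
    refine Finset.sum_congr rfl fun y _ => ?_
    rw [map_sub]; ring
  have n1 : ‖∑ y ∈ Icc 1 M, (u y - u' y) * conj (v y)‖ ≤ 6 * e * M := by
    refine c1.trans ?_
    have h9 := hone v hv M
    rw [inv_inv]
    have a1 : e⁻¹ * ∑ y ∈ Icc 1 M, ‖u y - u' y‖ ^ 2 ≤ e⁻¹ * ((10 * e ^ 2 + e ^ 2) * M) :=
      mul_le_mul_of_nonneg_left k1 (by positivity)
    have a2 : e⁻¹ * ((10 * e ^ 2 + e ^ 2) * (M : ℝ)) = 11 * e * M := by
      field_simp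
      ring
    have a3 : e * ∑ y ∈ Icc 1 M, ‖v y‖ ^ 2 ≤ e * M := mul_le_mul_of_nonneg_left h9 he.le
    linarith
  have n2 : ‖∑ y ∈ Icc 1 M, u' y * conj (v y - v' y)‖ ≤ (35 / 2) * e * M := by
    refine c2.trans ?_
    have a1 : e⁻¹ * ∑ y ∈ Icc 1 M, ‖v y - v' y‖ ^ 2 ≤ e⁻¹ * ((10 * e ^ 2 + e ^ 2) * M) :=
      mul_le_mul_of_nonneg_left k2 (by positivity)
    have a2 : e⁻¹ * ((10 * e ^ 2 + e ^ 2) * (M : ℝ)) = 11 * e * M := by
      field_simp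
      ring
    have a3 : e * ∑ y ∈ Icc 1 M, ‖u' y‖ ^ 2 ≤ e * (24 * M) := mul_le_mul_of_nonneg_left k4 he.le
    linarith
  rw [e1]
  refine (norm_add₃_le).trans ?_
  have hM : (0 : ℝ) ≤ e * M := by positivity
  linarith

/-- near frequencies of the two functions are not resonant -/
theorem tst_near (P P' ℓ h : ℕ) (hP : 1 ≤ P) (hh : 1 ≤ h) (c c' y y' : ℤ)
    (hu : (P : ℤ) ^ (ℓ + 2) * c - (P' : ℤ) ^ (ℓ + 2) * c' ≠ 0)
    (h1 : |(y : ℝ) - ((P * h : ℕ) : ℝ) * c| ≤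
      1 / (2 * ((P : ℝ) ^ (ℓ + 2) + (P' : ℝ) ^ (ℓ + 2))) * ((P * h : ℕ) : ℝ))
    (h2 : |(y' : ℝ) - ((P' * h : ℕ) : ℝ) * c'| ≤
      1 / (2 * ((P : ℝ) ^ (ℓ + 2) + (P' : ℝ) ^ (ℓ + 2))) * ((P' * h : ℕ) : ℝ)) :
    (P : ℤ) ^ (ℓ + 1) * y ≠ (P' : ℤ) ^ (ℓ + 1) * y' := by
  intro heq
  have hPr : (1 : ℝ) ≤ P := by exact_mod_cast hP
  have hK : 0 < (P : ℝ) ^ (ℓ + 2) + (P' : ℝ) ^ (ℓ + 2) := by positivity
  obtain ⟨K, hKd⟩ : ∃ K : ℝ, K = (P : ℝ) ^ (ℓ + 2) + (P' : ℝ) ^ (ℓ + 2) := ⟨_, rfl⟩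
  rw [← hKd] at h1 h2 hK
  have hhr : (1 : ℝ) ≤ h := by exact_mod_cast hh
  have heqr : (P : ℝ) ^ (ℓ + 1) * y = (P' : ℝ) ^ (ℓ + 1) * y' := by exact_mod_cast heq
  have hur : (1 : ℝ) ≤ |(P : ℝ) ^ (ℓ + 2) * c - (P' : ℝ) ^ (ℓ + 2) * c'| := by
    have h3 : (1 : ℤ) ≤ |(P : ℤ) ^ (ℓ + 2) * c - (P' : ℤ) ^ (ℓ + 2) * c'| := Int.one_le_abs hu
    exact_mod_cast h3
  push_cast at h1 h2
  have h4 : |(P : ℝ) ^ (ℓ + 1) * y - (P : ℝ) ^ (ℓ + 2) * h * c| ≤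
      (P : ℝ) ^ (ℓ + 2) * (1 / (2 * K) * h) := by
    have e1 : (P : ℝ) ^ (ℓ + 1) * y - (P : ℝ) ^ (ℓ + 2) * h * c =
        (P : ℝ) ^ (ℓ + 1) * ((y : ℝ) - P * h * c) := by ring
    rw [e1, abs_mul, abs_of_nonneg (by positivity : (0 : ℝ) ≤ (P : ℝ) ^ (ℓ + 1))]
    refine (mul_le_mul_of_nonneg_left h1 (by positivity)).trans (le_of_eq ?_)
    ring
  have h5 : |(P' : ℝ) ^ (ℓ + 1) * y' - (P' : ℝ) ^ (ℓ + 2) * h * c'| ≤
      (P' : ℝ) ^ (ℓ + 2) * (1 / (2 * K) * h) := by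
    have e1 : (P' : ℝ) ^ (ℓ + 1) * y' - (P' : ℝ) ^ (ℓ + 2) * h * c' =
        (P' : ℝ) ^ (ℓ + 1) * ((y' : ℝ) - P' * h * c') := by ring
    rw [e1, abs_mul, abs_of_nonneg (by positivity : (0 : ℝ) ≤ (P' : ℝ) ^ (ℓ + 1))]
    refine (mul_le_mul_of_nonneg_left h2 (by positivity)).trans (le_of_eq ?_)
    ring
  have h6 : |(h : ℝ) * ((P : ℝ) ^ (ℓ + 2) * c - (P' : ℝ) ^ (ℓ + 2) * c')| ≤
      K * (1 / (2 * K) * h) := by
    have e2 : (h : ℝ) * ((P : ℝ) ^ (ℓ + 2) * c - (P' : ℝ) ^ (ℓ + 2) * c') =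
        ((P' : ℝ) ^ (ℓ + 1) * y' - (P' : ℝ) ^ (ℓ + 2) * h * c') -
        ((P : ℝ) ^ (ℓ + 1) * y - (P : ℝ) ^ (ℓ + 2) * h * c) := by
      rw [heqr]; ring
    rw [e2]
    refine (abs_sub _ _).trans ?_
    have e3 : K * (1 / (2 * K) * h) = (P : ℝ) ^ (ℓ + 2) * (1 / (2 * K) * h) +
        (P' : ℝ) ^ (ℓ + 2) * (1 / (2 * K) * h) := by
      rw [← add_mul, ← hKd]
    rw [e3]
    linarith
  have e4 : K * (1 / (2 * K) * h) = (h : ℝ) / 2 := by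
    field_simp
  rw [e4, abs_mul, abs_of_nonneg (by positivity : (0 : ℝ) ≤ (h : ℝ))] at h6
  nlinarith

theorem st_TST (hV : ST_VDC) (hD : ST_TFD) (hL : ST_TEL) (hM : ST_TFM) (hP : ST_FPV) :
    ST_TST := by
  classical
  intro r lev D ψ S hT ℓ hO P P' X X' x x' hP1 hP1' hX hX' hex
  obtain ⟨j0, hj0, hne0⟩ := hex
  -- the coordinate `j`
  obtain ⟨j, hj, hju⟩ : ∃ j, lev j = ℓ ∧ (P : ℤ) ^ (ℓ + 2) * Matrix.vecMul X D j -
      (P' : ℤ) ^ (ℓ + 2) * Matrix.vecMul X' D j ≠ 0 := by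
    obtain ⟨U, hU⟩ : ∃ U : Fin r → ℤ, U = fun i => if lev i = ℓ + 1 then
      (P : ℤ) ^ (ℓ + 2) * X i - (P' : ℤ) ^ (ℓ + 2) * X' i else 0 := ⟨_, rfl⟩
    have hU0 : U ≠ 0 := by
      intro h
      have h1 := congrFun h j0
      rw [hU] at h1
      simp only [if_pos hj0, Pi.zero_apply] at h1
      exact hne0 (sub_eq_zero.1 h1)
    obtain ⟨j, hj, hju⟩ := hT.2.2.2.2.2.2 ℓ U hU0 (by
      intro i hi
      by_contra hcon
      apply hi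
      rw [hU]
      simp only [if_neg hcon])
    refine ⟨j, hj, ?_⟩
    have h2 : Matrix.vecMul U D j = (P : ℤ) ^ (ℓ + 2) * Matrix.vecMul X D j -
        (P' : ℤ) ^ (ℓ + 2) * Matrix.vecMul X' D j := by
      show ∑ i, U i * D i j = (P : ℤ) ^ (ℓ + 2) * ∑ i, X i * D i j -
        (P' : ℤ) ^ (ℓ + 2) * ∑ i, X' i * D i j
      rw [Finset.mul_sum, Finset.mul_sum, ← Finset.sum_sub_distrib]
      refine Finset.sum_congr rfl fun i _ => ?_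
      rw [hU]
      simp only
      by_cases hi : lev i = ℓ + 1
      · rw [if_pos hi]; ring
      · rw [if_neg hi]
        by_cases hD0 : D i j = 0
        · rw [hD0]; ring
        · have h3 := hT.2.2.2.1 i j hD0
          have h4 : X i = 0 := by
            by_contra hcon
            have := hX i hcon
            omega
          have h5 : X' i = 0 := by
            by_contra hcon
            have := hX' i hcon
            omega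
          rw [h4, h5]; ring
    rw [← h2]
    exact hju
  obtain ⟨c, hc⟩ : ∃ c : ℤ, c = Matrix.vecMul X D j := ⟨_, rfl⟩
  obtain ⟨c', hc'⟩ : ∃ c' : ℤ, c' = Matrix.vecMul X' D j := ⟨_, rfl⟩
  rw [← hc, ← hc'] at hju
  have hPr : (1 : ℝ) ≤ P := by exact_mod_cast hP1
  obtain ⟨lam, hlam⟩ : ∃ lam : ℝ, lam = 1 / (2 * ((P : ℝ) ^ (ℓ + 2) + (P' : ℝ) ^ (ℓ + 2))) :=
    ⟨_, rfl⟩
  have hlam0 : 0 < lam := by rw [hlam]; positivity
  refine hV _ (fun y => ?_) ?_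
  · rw [norm_mul, RCLike.norm_conj]
    exact mul_le_one₀ (pdt_norm _ _) (norm_nonneg _) (pdt_norm _ _)
  intro ε hε
  obtain ⟨e, he⟩ : ∃ e : ℝ, e = min 1 (ε / 25) := ⟨_, rfl⟩
  have he0 : 0 < e := by rw [he]; exact lt_min one_pos (by positivity)
  have he1 : e ≤ 1 := by rw [he]; exact min_le_left _ _
  have he2 : 25 * e ≤ ε := by
    have : e ≤ ε / 25 := by rw [he]; exact min_le_right _ _
    linarith
  obtain ⟨n₀, hn₀⟩ := hM r lev D ψ S hT ℓ hO X j lam (e ^ 2) hX hj hlam0 (by positivity)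
  obtain ⟨n₁, hn₁⟩ := hM r lev D ψ S hT ℓ hO X' j lam (e ^ 2) hX' hj hlam0 (by positivity)
  rw [← hc] at hn₀
  rw [← hc'] at hn₁
  refine ⟨max 1 (max n₀ n₁), fun h hh => ?_⟩
  have hh1 : 1 ≤ h := le_trans (le_max_left _ _) hh
  have hPh : n₀ ≤ P * h := le_trans (le_trans (le_trans (le_max_left _ _) (le_max_right _ _)) hh)
    (Nat.le_mul_of_pos_left h hP1)
  have hPh' : n₁ ≤ P' * h := le_trans (le_trans (le_trans (le_max_right _ _) (le_max_right _ _)) hh)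
    (Nat.le_mul_of_pos_left h hP1')
  obtain ⟨hFc, hFd⟩ := hD r lev D ψ S hT ℓ X hX (P * h)
  obtain ⟨hFc', hFd'⟩ := hD r lev D ψ S hT ℓ X' hX' (P' * h)
  obtain ⟨hE, _⟩ := hL r lev D ψ S hT ℓ hO
  obtain ⟨N, g, hN, hB⟩ := tst_dec hP lev S ℓ P x (fun Y hY hYl => hE P Y x hP1 hY hYl)
    (Fn S X (P * h)) hFc hFd (fun Y => |(Y j : ℝ) - ((P * h : ℕ) : ℝ) * c| ≤
      lam * ((P * h : ℕ) : ℝ)) e he0 (fun B hB => hn₀ (P * h) hPh B fun Y hY =>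
        not_le.1 (hB Y hY))
  obtain ⟨N', g', hN', hB'⟩ := tst_dec hP lev S ℓ P' x' (fun Y hY hYl => hE P' Y x' hP1' hY hYl)
    (Fn S X' (P' * h)) hFc' hFd' (fun Y => |(Y j : ℝ) - ((P' * h : ℕ) : ℝ) * c'| ≤
      lam * ((P' * h : ℕ) : ℝ)) e he0 (fun B hB => hn₁ (P' * h) hPh' B fun Y hY =>
        not_le.1 (hB Y hY))
  have hZ : pdt_Z (fun y => ∑ Y ∈ N, g Y * mFourier Y (S^[P * y] x))
      (fun y => ∑ Y ∈ N', g' Y * mFourier Y (S^[P' * y] x')) := by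
    refine pdt_Z_sum N fun Y hY => ?_
    refine pdt_Z_symm (pdt_Z_sum N' fun Y' hY' => pdt_Z_symm ?_)
    refine pdt_Z_smul2 (g Y) (g' Y') ?_
    obtain ⟨a1, a2⟩ := hN Y hY
    obtain ⟨b1, b2⟩ := hN' Y' hY'
    refine hO ℓ le_rfl P P' Y Y' x x' hP1 hP1' a2 b2 ⟨j, hj, ?_⟩
    rw [hlam] at a1 b1
    exact tst_near P P' ℓ h hP1 hh1 c c' (Y j) (Y' j) hju a1 b1
  have hnorm : ∀ (Y : Fin r → ℤ) (n : ℕ) (w : T r), ‖Fn S Y n w‖ ≤ 1 := by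
    intro Y n w
    unfold Fn
    rw [norm_mul, RCLike.norm_conj]
    exact mul_le_one₀ (pdt_norm _ _) (norm_nonneg _) (pdt_norm _ _)
  have hfin := tst_prod he0 he1 (fun y => hnorm X (P * h) (S^[P * y] x))
    (fun y => hnorm X' (P' * h) (S^[P' * y] x')) hB hB' hZ
  filter_upwards [hfin] with M hMf
  have e1 : ∑ y ∈ Icc 1 M, (mFourier X (S^[P * (y + h)] x) *
      conj (mFourier X' (S^[P' * (y + h)] x'))) * conj (mFourier X (S^[P * y] x) *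
        conj (mFourier X' (S^[P' * y] x'))) =
      ∑ y ∈ Icc 1 M, Fn S X (P * h) (S^[P * y] x) *
        conj (Fn S X' (P' * h) (S^[P' * y] x')) := by
    refine Finset.sum_congr rfl fun y _ => ?_
    unfold Fn
    have e2 : P * (y + h) = P * h + P * y := by ring
    have e3 : P' * (y + h) = P' * h + P' * y := by ring
    rw [e2, e3, Function.iterate_add_apply, Function.iterate_add_apply]
    simp only [map_mul, Complex.conj_conj]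
    ring
  rw [e1]
  refine hMf.trans ?_
  exact mul_le_mul_of_nonneg_right he2 (Nat.cast_nonneg M)

end Pool.Agent.Helper16.CZ
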